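import Pool.Agent.Q19.SU.FinN

/-!
# MP_cda23d_nt: uniformity for all primes and all levels at once, for almost all invariants of all
heights

Let `K` be a number field of degree `d` (the problem: `K = ℚ`). The invariants `j ≠ 0, 1728` in `K`,
of ALL heights, are ordered by the product `radical j` of the norms of the primes (not dividing six) at
which `j` reduces to `0`, `1728` or `∞`; there are `X ^ (2 / 3 + o(1))` with `radical j ≤ X`. All but a
proportion `X ^ (-ν)` of them have the following property: for EVERY elliptic curve `E` over `K` of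
invariant `j` (all twists) and EVERY prime `n`, and also for every integer `n ≥ 1` which is prime to
some simple pole of `j` (for instance all `n` with `n ^ d ≤ H(j) ^ (1 - t)`), the image of the Galois
group of `K` in the automorphism group of `E[n]` contains all automorphisms of determinant `1`. So for
these curves Serre's question has the answer yes without any exceptional prime. The simple poles carry
almost the whole height of `j`.

The complement contains infinitely many invariants of every kind of exception of small level (rational
points of `X₀(2)`, `X₀(3)`, `X₀(5)`, ... ), so that a set of density zero has to be left out.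

Proof. For almost all invariants `j` of all heights at least `(1 - η)` of the height of `j` comes from
simple poles prime to six (engine `Pool.Agent.Q19.JL`). Let `v` be a simple pole. The inertia group at
`v` acts on the torsion of order prime to `v` by unipotent automorphisms up to sign, and for every
prime `p` prime to `v` it contains an element of `p`-power order which does not act trivially on
`E[p]`: a transvection of `E[p ^ k]`, up to sign, which is trivial on the torsion of order prime to `p`
(again up to sign). If no line of `E[p]` is stable, a transvection and a suitable conjugate generate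
`SL₂(ℤ/p ^ k)`; the signs (only `p = 2`) are removed with the elements `-1` of the odd levels. Suppose
that a line `W` of `E[p]` is stable, `p` odd. At all places above a simple pole the points of `W` have
level `0` (reduce to nonsingular points of a minimal model), since an element of order `p` fixes only
one line. Let `x_k` be the abscissa of `2 ^ k P`, `P ∈ W`. The duplication formula for the height of
`x_k`, relative to the model, has a loss only at the places outside the simple poles: the loss is at
most `h(j)` minus the part of the simple poles plus a constant times `d`. As `x_k` is periodic, this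
contradicts the fact that the simple poles have more than half of the height, if `h(j)` is larger than
a constant times `d`, for all `p` at once. For `p = 2` a stable line gives `j = 256 (t - 1) ^ 3 / t`,
and then the simple poles have at most a third of the height.
-/

set_option autoImplicit false

open NumberField IsDedekindDomain
open scoped Classical

namespace Pool.Agent.Results.MP_cda23d_nt.AllInvariantsAllPrimes

/-- The curve `y² = x³ + Ax + B` over `K`. -/
def curve {K : Type} [Field K] (A B : K) : WeierstrassCurve K := ⟨0, 0, 0, A, B⟩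

/-- The group of its points over the algebraic closure of `K`. -/
abbrev Points {K : Type} [Field K] (A B : K) : Type :=
  ((curve A B).baseChange (AlgebraicClosure K)).toAffine.Point

/-- The action of an automorphism `σ` of the algebraic closure over `K` on the points. -/
noncomputable def galois {K : Type} [Field K] (A B : K)
    (σ : AlgebraicClosure K ≃ₐ[K] AlgebraicClosure K) : Points A B →+ Points A B :=
  WeierstrassCurve.Affine.Point.map (σ : AlgebraicClosure K →ₐ[K] AlgebraicClosure K)

/-- The points `P` and `Q` form a basis of the `n`-torsion. -/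
def IsBasis {K : Type} [Field K] (A B : K) (n : ℕ) (P Q : Points A B) : Prop :=
  n • P = 0 ∧ n • Q = 0 ∧
    (∀ R : Points A B, n • R = 0 → ∃ a b : ℤ, R = a • P + b • Q) ∧
    ∀ a b : ℤ, a • P + b • Q = 0 → (n : ℤ) ∣ a ∧ (n : ℤ) ∣ b

/-- The image of the Galois group in the automorphism group of the `n`-torsion contains all
automorphisms of determinant `1`: there is a basis of the `n`-torsion in which every matrix of
determinant `1` modulo `n` is the matrix of some `σ`. -/
def ContainsSL {K : Type} [Field K] (A B : K) (n : ℕ) : Prop :=
  ∃ P Q : Points A B, IsBasis A B n P Q ∧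
    ∀ a b c d : ℤ, (n : ℤ) ∣ a * d - b * c - 1 →
      ∃ σ : AlgebraicClosure K ≃ₐ[K] AlgebraicClosure K,
        galois A B σ P = a • P + c • Q ∧ galois A B σ Q = b • P + d • Q

/-- The invariant of `y² = x³ + Ax + B`. -/
noncomputable def jInvariant {K : Type} [Field K] (A B : K) : K :=
  6912 * A ^ 3 / (4 * A ^ 3 + 27 * B ^ 2)

/-- the product of the norms of the primes not dividing six at which `j` reduces to `0`, `1728` or
`∞` -/
noncomputable def radical {K : Type} [Field K] [NumberField K] (j : K) : ℝ :=
  ∏ᶠ v ∈ {v : HeightOneSpectrum (𝓞 K) | v.valuation K 6 = 1 ∧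
    (v.valuation K j ≠ 1 ∨ v.valuation K (j - 1728) ≠ 1)}, (Ideal.absNorm v.asIdeal : ℝ)

/-- the invariants `j ≠ 0, 1728`, of whatever height, with `radical j ≤ X` -/
def Invariants (K : Type) [Field K] [NumberField K] (X : ℝ) : Set K :=
  {j | j ≠ 0 ∧ j ≠ 1728 ∧ radical j ≤ X}

/-- the simple poles of `j`: the primes not dividing six at which the order of `j` is `-1` -/
def simplePoles {K : Type} [Field K] [NumberField K] (j : K) : Set (HeightOneSpectrum (𝓞 K)) :=
  {v | v.valuation K 6 = 1 ∧ WithZero.log (v.valuation K j) = 1}

/-- `n` is prime, or `n ^ [K : ℚ] ≤ H(j) ^ (1 - t)`, or `n` is prime to a simple pole of `j`. -/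
def Admissible {K : Type} [Field K] [NumberField K] (t : ℝ) (j : K) (n : ℕ) : Prop :=
  n.Prime ∨ (n : ℝ) ^ Module.finrank ℚ K ≤ Height.mulHeight₁ j ^ (1 - t) ∨
    ∃ v ∈ simplePoles j, v.valuation K (n : K) = 1

/-- For every `E : y² = x³ + Ax + B` of invariant `j` and every admissible `n ≥ 1` the image of the
Galois group in the automorphism group of `E[n]` contains all automorphisms of determinant `1`; and
the simple poles of `j` have at least `1 - t` of the height of `j`. -/
def AllLevels {K : Type} [Field K] [NumberField K] (t : ℝ) (j : K) : Prop :=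
  (∀ A B : K, 4 * A ^ 3 + 27 * B ^ 2 ≠ 0 → jInvariant A B = j →
    ∀ n : ℕ, 1 ≤ n → Admissible t j n → ContainsSL A B n) ∧
  (1 - t) * Height.logHeight₁ j ≤
    ∑ᶠ v ∈ simplePoles j, Real.log (Ideal.absNorm v.asIdeal : ℝ)

theorem inv_eq (K : Type) [Field K] [NumberField K] (X : ℝ) :
    Invariants K X = Pool.Agent.Q19.JL.Iv K X := by
  ext j
  constructor
  · rintro ⟨h0, h1, h2⟩
    refine ⟨h0, h1, ?_⟩
    rw [← Pool.Agent.Q19.JL.rad_eq h0 h1]
    exact h2
  · rintro ⟨h0, h1, h2⟩
    refine ⟨h0, h1, ?_⟩
    rw [← Pool.Agent.Q19.JL.rad_eq h0 h1] at h2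
    exact h2

theorem all_of {K : Type} [Field K] [NumberField K] {t : ℝ} {j : K} (h0 : j ≠ 0)
    (h : Pool.Agent.Q19.SU.AllSLn t j)
    (h' : (1 - t) * Pool.Agent.W223.AK.ht j ≤ Pool.Agent.Y733.LS.sp j) : AllLevels t j := by
  refine ⟨?_, ?_⟩
  · intro A B hD hj n hn hadm
    exact Pool.Agent.Q19.SU.hasSLn_nat (h A B hD hj n hn (by
      rcases hadm with h1 | h1 | ⟨v, hv, hvn⟩
      · exact Or.inl h1
      · exact Or.inr (Or.inl (Pool.Agent.Q19.SU.lev_of hn h1))
      · exact Or.inr (Or.inr ⟨v, (Pool.Agent.Q19.SU.sp_iff h0 v).1 hv,
          (Pool.Agent.Q19.SU.val_iff v (by omega)).1 hvn⟩)))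
  · rw [Pool.Agent.Q19.SU.logH, simplePoles, Pool.Agent.Q19.SU.sp_sum h0]
    exact h'

/-- **Theorem.** (1) There are `X ^ (2 / 3 + o(1))` invariants, of all heights, with
`radical j ≤ X`. (2) For all `t > 0` and all but a power-saving proportion of them the image contains
all automorphisms of determinant `1`, for all curves of invariant `j` and all primes and all admissible
levels at once. -/
theorem result (K : Type) [Field K] [NumberField K] :
    (∀ δ : ℝ, 0 < δ → ∃ X₀ : ℝ, ∀ X : ℝ, X₀ ≤ X → (Invariants K X).Finite ∧
      X ^ (2 / 3 - δ) ≤ ((Invariants K X).ncard : ℝ) ∧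
      ((Invariants K X).ncard : ℝ) ≤ X ^ (2 / 3 + δ)) ∧
    ∀ t : ℝ, 0 < t → ∃ ν X₀ : ℝ, 0 < ν ∧ ∀ X : ℝ, X₀ ≤ X →
      (({j | j ∈ Invariants K X ∧ ¬ AllLevels t j} : Set K).ncard : ℝ) ≤
        X ^ (-ν) * (Invariants K X).ncard := by
  refine ⟨fun δ hδ => ?_, fun t ht => ?_⟩
  · obtain ⟨X1, hX1, h1⟩ := Pool.Agent.Q19.JL.Iv_upper K δ hδ
    obtain ⟨X2, hX2, h2⟩ := Pool.Agent.Q19.JL.Iv_lower K δ hδ
    refine ⟨max X1 X2, fun X hX => ?_⟩
    rw [inv_eq]
    exact ⟨Pool.Agent.Q19.JL.Iv_fin K (hX1.trans ((le_max_left _ _).trans hX)),
      h2 X ((le_max_right _ _).trans hX), h1 X ((le_max_left _ _).trans hX)⟩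
  · obtain ⟨ν, X₀, hν, -, h⟩ := Pool.Agent.Q19.SU.n_prop K t 0 ht
    refine ⟨ν, X₀, hν, fun X hX => ?_⟩
    rw [inv_eq]
    exact h X hX _ (fun j hj => hj.1) fun j hj hcon => hj.2 (all_of hj.1.1 hcon.1 hcon.2.1)

end Pool.Agent.Results.MP_cda23d_nt.AllInvariantsAllPrimes
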