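import Pool.Agent.Y673.SL.Bs
import Pool.Agent.Y673.SY.Bx
import Pool.Agent.Q327.MF.Gen

/-!
# MP_cda23d_nt: uniformity for all but few members of every family of elliptic curves with any number of
parameters, the parameters being taken from arbitrary finite sets, uniformly in the family

Let `r` and `d` be given.  A family of elliptic curves with `r` parameters enters by its invariant
`j = F / G`, where `F`, `G` are polynomials in `t_1, ..., t_r` over `ℤ` of total degree at most `d` such
that `F / G` is not constant.  For every `ε > 0` there are `C` and `c > 0` such that for every `N ≥ 5`,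
every `H ≥ 1`, EVERY such family whose coefficients have absolute values with sum at most `H`, and ALL
finite sets `S_1, ..., S_r` of rational numbers of height at most `H`, with at least `m` elements each:
among the `|S_1| ⋯ |S_r|` members `E_z`, `z ∈ S_1 × ⋯ × S_r`, there are at most

  `C H ^ (5 (r d + 1) / N + ε) |S_1| ⋯ |S_r| / m`

with `G(z) ≠ 0` for which some elliptic curve `E` over `ℚ` with invariant `F(z)/G(z)` and some prime `p`
with `N ≤ p ≤ exp (c √(log H))` exist such that the image of `Gal(ℚ̄/ℚ)` in `Aut(E[p])` does not contain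
`SL₂(𝔽_p)`.

For example, if the `S_i` are the integers (or the primes, the squares, the points of an arithmetic
progression, ...) up to `H` and `N` is large in terms of `r d / ε`, then all but `C H ^ (r - 1 + 2ε)` of the
`(2H + 1) ^ r` members are not exceptional, for all primes `N ≤ p ≤ exp (c √(log H))` at once; if the `S_i`
are all rational numbers of height at most `H`, all but `C H ^ (2 r - 2 + 2ε)` of about `H ^ (2 r)`.  Up to
`ε` this is the best possible: a family can have complex multiplication on a hypersurface `t_1 = 0`.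

The starting file `ExplicitWithoutSL` counts all rational invariants, and all pairs `(A, B)`.  The proof
combines this count with a bound for the heights of the values of `F / G` and with the Schwartz-Zippel
lemma for the hypersurfaces `F = j G`.
-/

set_option autoImplicit false

open WeierstrassCurve

namespace Pool.Agent.Results.MP_cda23d_nt.FamiliesWithoutSL

/-- The curve `y² = x³ + Ax + B` over `ℚ`. -/
def curve (A B : ℚ) : WeierstrassCurve ℚ := ⟨0, 0, 0, A, B⟩

/-- Its `j`-invariant. -/
def invariant (A B : ℚ) : ℚ := 1728 * (4 * A ^ 3) / (4 * A ^ 3 + 27 * B ^ 2)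

open scoped Classical in
/-- The group of its points over the algebraic closure of `ℚ`. -/
abbrev Points (A B : ℚ) : Type := ((curve A B).baseChange (AlgebraicClosure ℚ)).toAffine.Point

open scoped Classical in
/-- The action of an automorphism `σ` of the algebraic closure on the points. -/
noncomputable def galois (A B : ℚ) (σ : AlgebraicClosure ℚ ≃ₐ[ℚ] AlgebraicClosure ℚ) :
    Points A B →+ Points A B :=
  WeierstrassCurve.Affine.Point.map (σ : AlgebraicClosure ℚ →ₐ[ℚ] AlgebraicClosure ℚ)

open scoped Classical in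
/-- The points `P` and `Q` form a basis of the `p`-torsion. -/
def IsBasis (A B : ℚ) (p : ℕ) (P Q : Points A B) : Prop :=
  p • P = 0 ∧ p • Q = 0 ∧
    (∀ R : Points A B, p • R = 0 → ∃ m n : ℤ, R = m • P + n • Q) ∧
    ∀ m n : ℤ, m • P + n • Q = 0 → (p : ℤ) ∣ m ∧ (p : ℤ) ∣ n

open scoped Classical in
/-- The image of the Galois group in the automorphism group of the `p`-torsion contains all
automorphisms of determinant `1`: there is a basis of the `p`-torsion in which every matrix of
determinant `1` modulo `p` is the matrix of some `σ`. -/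
def ContainsSL (A B : ℚ) (p : ℕ) : Prop :=
  ∃ P Q : Points A B, IsBasis A B p P Q ∧
    ∀ a b c d : ℤ, (p : ℤ) ∣ a * d - b * c - 1 →
      ∃ σ : AlgebraicClosure ℚ ≃ₐ[ℚ] AlgebraicClosure ℚ,
        galois A B σ P = a • P + c • Q ∧ galois A B σ Q = b • P + d • Q

/-- `j` is the invariant of an elliptic curve over `ℚ` such that for some prime `p` with `N ≤ p ≤ P` the
image does not contain all automorphisms of determinant `1`. -/
def Exceptional (N : ℕ) (P : ℝ) (j : ℚ) : Prop :=
  ∃ A B : ℚ, 4 * A ^ 3 + 27 * B ^ 2 ≠ 0 ∧ invariant A B = j ∧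
    ∃ p : ℕ, p.Prime ∧ N ≤ p ∧ (p : ℝ) ≤ P ∧ ¬ ContainsSL A B p

/-- `F / G` is the invariant of a family with `r` parameters: `F`, `G` have total degree at most `d`, the
absolute values of the coefficients of each of them have sum at most `H`, and `F / G` is not constant. -/
structure IsFamily {r : ℕ} (d : ℕ) (H : ℝ) (F G : MvPolynomial (Fin r) ℤ) : Prop where
  degree_left : F.totalDegree ≤ d
  degree_right : G.totalDegree ≤ d
  length_left : (∑ m ∈ F.support, |((F.coeff m : ℤ) : ℝ)|) ≤ H
  length_right : (∑ m ∈ G.support, |((G.coeff m : ℤ) : ℝ)|) ≤ H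
  nonconstant : ∀ a b : ℤ, MvPolynomial.C a * F = MvPolynomial.C b * G → a = 0 ∧ b = 0

/-- **Few exceptional members in every family, uniformly in the family and in the sets of parameters.** -/
theorem result (r d : ℕ) (ε : ℝ) (hε : 0 < ε) : ∃ C c : ℝ, 0 < c ∧
    ∀ N : ℕ, 5 ≤ N → ∀ H : ℝ, 1 ≤ H →
    ∀ F G : MvPolynomial (Fin r) ℤ, IsFamily d H F G →
    -- finite sets `S_i` of at least `m` rational numbers, numerators and denominators at most `H`
    ∀ (S : Fin r → Finset ℚ) (m : ℕ), 1 ≤ m → (∀ i, m ≤ (S i).card) →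
      (∀ i, ∀ x ∈ S i, |(x.num : ℝ)| ≤ H ∧ (x.den : ℝ) ≤ H) →
      (Set.ncard {z : Fin r → ℚ | (∀ i, z i ∈ S i) ∧ MvPolynomial.aeval z G ≠ (0 : ℚ) ∧
        Exceptional N (Real.exp (c * Real.sqrt (Real.log H)))
          (MvPolynomial.aeval z F / MvPolynomial.aeval z G)} : ℝ) ≤
        C * H ^ (5 * ((r : ℝ) * d + 1) / N + ε) * ((∏ i, ((S i).card : ℝ)) / m) := by
  classical
  set k : ℝ := (r : ℝ) * d + 1 with hk
  have hkpos : 0 < k := by positivity
  obtain ⟨C, c, hc, h⟩ := Pool.Agent.Y673.SY.few_Q2 (show 0 < ε / k by positivity)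
  have hcont : ∀ {A B : ℚ} {p : ℕ}, p.Prime → 4 * A ^ 3 + 27 * B ^ 2 ≠ 0 →
      ¬ ContainsSL A B p → ¬ Pool.Agent.Y673.SL.HasSL A B p := by
    rintro A B p hp hD hno ⟨P, Q, h1, h2, h3, h4, h5⟩
    obtain ⟨h6, h7⟩ := Pool.Agent.Y673.SL.basis hD hp h1 h2 h3 h4
    exact hno ⟨P, Q, ⟨h1, h2, h6, h7⟩, h5⟩
  refine ⟨C * d, c, hc, fun N hN5 H hH F G hFG S m hm1 hm hS => ?_⟩
  set X : ℝ := H ^ (r * d + 1) with hX
  have hX1 : 1 ≤ X := one_le_pow₀ hH
  have hHX : H ≤ X := by
    calc H = H ^ 1 := (pow_one H).symm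
      _ ≤ H ^ (r * d + 1) := pow_le_pow_right₀ hH (by omega)
  obtain ⟨hfin, hcard⟩ := h N hN5 X hX1
  set J : Finset ℚ := hfin.toFinset with hJ
  set T : Set (Fin r → ℚ) := {z : Fin r → ℚ | (∀ i, z i ∈ S i) ∧ MvPolynomial.aeval z G ≠ (0 : ℚ) ∧
        Exceptional N (Real.exp (c * Real.sqrt (Real.log H)))
          (MvPolynomial.aeval z F / MvPolynomial.aeval z G)} with hTdef
  have hTfin : T.Finite := ((Fintype.piFinset S).finite_toSet).subset fun z hz =>
    Finset.mem_coe.2 (Fintype.mem_piFinset.2 hz.1)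
  have hcount := Pool.Agent.Q327.MF.count_rat F G hFG.degree_left hFG.degree_right hFG.nonconstant S hm
    J hTfin.toFinset (fun z hz => by
      obtain ⟨h1, h2, A, B, h3, h4, p, h5, h6, h7, h8⟩ := hTfin.mem_toFinset.1 hz
      refine ⟨h1, h2, hfin.mem_toFinset.2 ?_⟩
      obtain ⟨h9, h10⟩ := Pool.Agent.Q327.MF.value_ht F G hFG.degree_left hFG.degree_right hH
        hFG.length_left hFG.length_right z (fun i => hS i _ (h1 i)) h2
      refine ⟨h9, h10, A, B, h3, ?_, p, h5, h6, h7.trans ?_, hcont h5 h3 h8⟩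
      · rw [← h4]
        unfold Pool.Agent.Y673.Loc.jv invariant
        ring
      · apply Real.exp_le_exp.2
        apply mul_le_mul_of_nonneg_left _ hc.le
        apply Real.sqrt_le_sqrt
        exact Real.log_le_log (by linarith) hHX)
  rw [← Set.ncard_eq_toFinset_card T hTfin, ← Set.ncard_eq_toFinset_card _ hfin] at hcount
  have hmpos : (0 : ℝ) < m := by exact_mod_cast hm1
  have hcount' : (m : ℝ) * (T.ncard : ℝ) ≤
      ((Pool.Agent.Y673.SX.ExQ N c X).ncard : ℝ) * (d * ∏ i, ((S i).card : ℝ)) := by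
    exact_mod_cast hcount
  have hexp : X ^ (5 / (N : ℝ) + ε / k) = H ^ (5 * k / (N : ℝ) + ε) := by
    rw [hX, ← Real.rpow_natCast, ← Real.rpow_mul (by linarith)]
    congr 1
    push_cast
    rw [← hk]
    field_simp
  rw [hexp] at hcard
  have hprod : (0 : ℝ) ≤ d * ∏ i, ((S i).card : ℝ) :=
    mul_nonneg (Nat.cast_nonneg _) (Finset.prod_nonneg fun _ _ => Nat.cast_nonneg _)
  have h1 := hcount'.trans (mul_le_mul_of_nonneg_right hcard hprod)
  rw [← mul_div_assoc, le_div_iff₀ hmpos]
  calc (T.ncard : ℝ) * m = m * T.ncard := mul_comm _ _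
    _ ≤ C * H ^ (5 * k / (N : ℝ) + ε) * (d * ∏ i, ((S i).card : ℝ)) := h1
    _ = C * d * H ^ (5 * k / (N : ℝ) + ε) * ∏ i, ((S i).card : ℝ) := by ring

end Pool.Agent.Results.MP_cda23d_nt.FamiliesWithoutSL
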