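import Mathlib
import Pool.Agent.Q158.RR
import Pool.Agent.Results.MP_cda23d_nt.InvariantWindows

/-!
# Uniformity for all elliptic curves whose invariant has a random height

For `0 < s < 1` there are `P` and `c > 0` with the following property. If the integer `N` is given by digits or by
multiples of a random real number (in the sense of `RandomReals s`), then for all `k`, ALL rational numbers `j` whose
height differs from `N` by at most `k`, ALL elliptic curves over `ℚ` with invariant `j` and ALL primes `p` with
`P ≤ p ≤ exp (c √(log H(j)))` the order of the image of `Gal(ℚ̄/ℚ)` in `Aut(E[p])` is divisible by `p`.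
-/

set_option autoImplicit false

open WeierstrassCurve

namespace Pool.Agent.Results.MP_cda23d_nt.RandomInvariants

open InvariantWindows (ht invariant OrderDivisible Exc)

/-- For ALL rational numbers `A, B` with `4A³ + 27B² ≠ 0` such that the height `H` of the invariant of
`y² = x³ + Ax + B` differs from `N` by at most `k` and ALL primes `p` with `P ≤ p ≤ exp (c √(log H))` the order of
the image of the Galois group in the automorphism group of the `p`-torsion is divisible by `p`. -/
def Good (P : ℕ) (c : ℝ) (k N : ℕ) : Prop :=
  ∀ A B : ℚ, 4 * A ^ 3 + 27 * B ^ 2 ≠ 0 → |(ht (invariant A B) : ℝ) - N| ≤ k →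
    ∀ p : ℕ, p.Prime → P ≤ p → (p : ℝ) ≤ Real.exp (c * Real.sqrt (Real.log (ht (invariant A B) : ℝ))) →
      OrderDivisible A B p

/-- **Theorem.** For every `0 < s < 1` there are `P` and `c > 0` such that in the sense of `RandomReals s` (windows of
digits in all bases, and integers near the multiples `α v_k`, for random real numbers `α`, with Hausdorff dimensions and
measures of the exceptional sets) the property `Good P c k N` holds for all `k` at once. -/
theorem result (s : ℝ) (hs : 0 < s) (hs1 : s < 1) : ∃ (P : ℕ) (c : ℝ), 0 < c ∧
    Pool.Agent.Q21.DW.RandomReals s (fun (k : ℕ) (N : ℕ) => Good P c k N) := by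
  obtain ⟨P, c, hc, h⟩ := InvariantWindows.count s hs
  refine ⟨P, c, hc, Pool.Agent.Q158.RR.mono (Pool.Agent.Q158.RR.random (fun _ : Unit => Exc P c)
    (fun _ j => (ht j : ℝ)) s hs.le hs1 fun _ => h) (fun k => ((), k)) fun k N h1 => ?_⟩
  intro A B hAB hw p hp hPp hpc
  by_contra hcon
  exact absurd (h1 (invariant A B) ⟨A, B, hAB, rfl, p, hp, hPp, hpc, hcon⟩) (not_lt.2 hw)

end Pool.Agent.Results.MP_cda23d_nt.RandomInvariants
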