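import Pool.Agent.Results.MP_cda23d_nt.AllInvariantsAllPrimes
import Pool.Agent.Q19.SU.Ser2
import Pool.Agent.Y673.SL.Bs
import Pool.Agent.Q229.RAT

/-!
# Serre's uniformity question for ALL rational invariants near almost every real number

`SerreAt j` says: for EVERY elliptic curve `E` over `ℚ` with the invariant `j` (all twists) and EVERY prime `p ≥ 5` the image of
`Gal(ℚ̄/ℚ)` in the automorphism group of `E[p]` contains all automorphisms of determinant `1` (and so all automorphisms, since the
determinant is the cyclotomic character): Serre's question has for these curves the answer yes with the constant `C = 3`.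

The starting files and the file `AllInvariantsAllPrimes` have such properties for all invariants outside sets which are thin in
the order by heights or by radicals. Here we show that there is no exception at all near almost every real number `t`: if
`τ > 7/4`, then for almost every real number `t` ALL but finitely many of the rational numbers `j` with
`|t - j| ≤ den(j) ^ (-τ)` have the property, for example all but finitely many of the convergents of `t` (`τ = 2`).
For other `τ` this holds for all `t` outside a set of Hausdorff dimension at most `7 / (4 τ)`.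

Proof: `SerreAt j` holds if the simple poles of `j` prime to six have more than half of the height of `j` and the height is large
(`Pool.Agent.Q19.SU.sl_of`). There are at most `C T ^ (7/4 + ε)` rational numbers in `[-M, M]` of denominator at most `T` for
which the simple part of the denominator is smaller (Rankin's method, `Q229.RAP`), and the intervals of length `T ^ (-τ)` around
these numbers cover a set of real numbers which is small (Borel–Cantelli, Hausdorff–Cantelli).
-/

set_option autoImplicit false

namespace Pool.Agent.Results.MP_cda23d_nt.RationalsNearRealInvariants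

open MeasureTheory Filter
open Pool.Agent.Results.MP_cda23d_nt.AllInvariantsAllPrimes (ContainsSL jInvariant)

/-- For every `E : y² = x³ + Ax + B` over `ℚ` of invariant `j` and every prime `p ≥ 5` the image of the Galois group in the
automorphism group of `E[p]` contains all automorphisms of determinant `1`. -/
def SerreAt (j : ℚ) : Prop :=
  ∀ A B : ℚ, 4 * A ^ 3 + 27 * B ^ 2 ≠ 0 → jInvariant A B = j → ∀ p : ℕ, p.Prime → 5 ≤ p → ContainsSL A B p

theorem serre_of {j : ℚ} (h : Pool.Agent.Q19.SU.AllSL j) : SerreAt j := by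
  intro A B hD hj p hp h5
  obtain ⟨P, Q, h1, h2, h3, h4, h6⟩ := h A B hD hj p hp h5 (by
    rw [Module.finrank_self]
    nlinarith)
  obtain ⟨h7, h8⟩ := Pool.Agent.Y673.SL.basis hD hp h1 h2 h3 h4
  exact ⟨P, Q, ⟨h1, h2, h7, h8⟩, h6⟩

theorem near (τ : ℝ) (hτ : 0 < τ) :
    ∃ Z : Set ℝ, dimH Z ≤ ENNReal.ofReal (7 / (4 * τ)) ∧ (7 / 4 < τ → volume Z = 0) ∧
      ∀ t : ℝ, t ∉ Z → ∀ᶠ T : ℝ in atTop, ∀ j : ℚ, (j.den : ℝ) ≤ T → |t - j| ≤ T ^ (-τ) → SerreAt j := by
  obtain ⟨Z, h1, h2, h3⟩ := Pool.Agent.Q229.RAT.near_sp SerreAt (η₀ := 1 / 2) (by norm_num) (by norm_num)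
    (fun η hη0 hη1 => by
      refine ⟨{0, 1728} ∪ {j : ℚ | Pool.Agent.W223.AK.ht j ≤
        (Module.finrank ℚ ℚ * Pool.Agent.Q19.SU.C5) / (1 / 2 - η)}, ?_, fun x hx hsp => ?_⟩
      · exact ((Set.finite_singleton _).insert _).union (Pool.Agent.Q229.RAT.ht_fin _)
      · have hx0 : x ≠ 0 := fun h => hx (Or.inl (Or.inl h))
        have hx1 : x ≠ 1728 := fun h => hx (Or.inl (Or.inr h))
        have hx2 : (Module.finrank ℚ ℚ * Pool.Agent.Q19.SU.C5) / (1 / 2 - η) < Pool.Agent.W223.AK.ht x :=
          not_le.1 fun h => hx (Or.inr h)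
        rw [div_lt_iff₀ (by linarith)] at hx2
        exact serre_of (Pool.Agent.Q19.SU.sl_of hx0 hx1 hη1 hsp (by linarith))) τ hτ
  have e : (2 - (1 / 2 : ℝ) / 2) = 7 / 4 := by norm_num
  rw [e] at h1 h2
  refine ⟨Z, ?_, h2, fun t ht => (h3 t ht).2⟩
  rw [div_div] at h1
  exact h1

/-- **Serre's uniformity question for all rational invariants near almost every real number.** (1) For every `τ > 0` there is a
set `Z` of real numbers of Hausdorff dimension at most `7 / (4 τ)`, of measure zero if `τ > 7/4`, such that for all `t ∉ Z` and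
all large `T`, for ALL rational numbers `j` of denominator at most `T` with `|t - j| ≤ T ^ (-τ)`, for ALL elliptic curves `E` over
`ℚ` of invariant `j` and ALL primes `p ≥ 5` the image of the Galois group in the automorphism group of `E[p]` contains all
automorphisms of determinant `1`. (2) For `τ > 7/4` and almost every real `t` all but finitely many of the rational numbers `j`
with `|t - j| ≤ den(j) ^ (-τ)` have this property. -/
theorem result :
    (∀ τ : ℝ, 0 < τ → ∃ Z : Set ℝ, dimH Z ≤ ENNReal.ofReal (7 / (4 * τ)) ∧ (7 / 4 < τ → volume Z = 0) ∧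
      ∀ t : ℝ, t ∉ Z → ∀ᶠ T : ℝ in atTop, ∀ j : ℚ, (j.den : ℝ) ≤ T → |t - j| ≤ T ^ (-τ) → SerreAt j) ∧
    ∀ τ : ℝ, 7 / 4 < τ → ∀ᵐ t : ℝ, {j : ℚ | |t - j| ≤ (j.den : ℝ) ^ (-τ) ∧ ¬ SerreAt j}.Finite := by
  refine ⟨near, fun τ hτ => ?_⟩
  have hτ0 : 0 < τ := by linarith
  obtain ⟨Z, -, h2, h3⟩ := near τ hτ0
  filter_upwards [compl_mem_ae_iff.2 (h2 hτ)] with t ht
  have h4 : ∀ᶠ T : ℝ in atTop, ∀ x : ℚ, (x.den : ℝ) ≤ T → |t - x| ≤ T ^ (-τ) → x ∉ {j : ℚ | ¬ SerreAt j} := by
    filter_upwards [h3 t ht] with T hT x hx hxt hcon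
    exact hcon (hT x hx hxt)
  refine (Pool.Agent.Q229.RAQ.finite_den hτ0 h4).subset ?_
  rintro x ⟨hx1, hx2⟩
  exact ⟨hx2, hx1⟩

end Pool.Agent.Results.MP_cda23d_nt.RationalsNearRealInvariants
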